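import Pool.Agent.N681.PN.NX2Core
import Pool.Agent.Y554.SN.Top
import Pool.Agent.Y554.DP.OAF

/-!
Project PN (helper931), part NX2: two layers, two arms in the bulk.
-/

set_option autoImplicit false

namespace Pool.Agent.N681.PN.NX2

theorem armG : Pool.Agent.Y554.SN.ArmG H985T.AA (1 / 4) where
  congr := Pool.Agent.Y554.DP.AA_fam.congr
  inner := Pool.Agent.Y554.DP.AA_fam.inner
  outer := Pool.Agent.Y554.DP.AA_fam.outer
  flip := Pool.Agent.Y554.DP.AA_fam.flip
  pos := Pool.Agent.Y554.DP.AA_fam.pos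
  upper := Pool.Agent.Y554.DP.AA_fam.upper

theorem main : Pool.Agent.N931.PN.S_NX2 := by
  obtain ⟨C, hC, h⟩ := Pool.Agent.Y554.SN.qXS H985T.AA (1 / 4) armG
  refine core ⟨C, hC, fun a R x h1 h2 h3 h4 h5 => ?_⟩
  exact h a R x h1 h2 h3 h4 h5

end Pool.Agent.N681.PN.NX2
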