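import Pool.Agent.N931.PN.Stm5
import Pool.Agent.N144.EW.DetA
import Pool.Agent.H985R3.TA.STAof
import Pool.Agent.H389R2.NS.D0

/-!
Project PN (helper931), part NX2: two layers, two arms in the bulk; from the bound for the two-layer
probability of the two-arm event of an annulus.
-/

set_option autoImplicit false

namespace Pool.Agent.N681.PN.NX2

open H974 H12S H389NS H984N H984P H342P H985T Finset
open Pool.Agent.N116.EW
open Pool.Agent.N931.PN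

theorem wv_far {D : Dm} {z u : Vtx} (hu : u ∈ wv D) {m : ℤ} (h : m ≤ D.bd z) :
    m ≤ sd u z := by
  obtain ⟨e, he, h1⟩ := hu
  obtain ⟨k1, k2, k3, k4⟩ := Pool.Agent.N144.EW.bd_le (D := D) (c := z)
  rw [Pool.Agent.N144.EW.le_sd_iff]
  obtain ⟨x, y, _ | _⟩ := e
  · rcases he with ⟨h2, _⟩ | ⟨_, h2, _⟩ | ⟨h2, _⟩
    · exact absurd h2 (by simp)
    · simp only at h2
      simp only [src_mk, tgt_false] at h1
      rcases h1 with rfl | rfl <;> simp only <;> omega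
    · exact absurd h2 (by simp)
  · rcases he with ⟨_, h2, _⟩ | ⟨h2, _⟩ | ⟨_, h2, _⟩
    · simp only at h2
      simp only [src_mk, tgt_true] at h1
      rcases h1 with rfl | rfl <;> simp only <;> omega
    · exact absurd h2 (by simp)
    · simp only at h2
      simp only [src_mk, tgt_true] at h1
      rcases h1 with rfl | rfl <;> simp only <;> omega

/-- the two crossings in a domain -/
def CD (c1 c2 : ℤ) (r R : ℕ) (S F : Finset Edg) : Prop :=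
  Crs c1 c2 r R (↑F : Set Edg) ∧ DCrs c1 c2 r R (↑(S \ F) : Set Edg)

theorem P2_trl (s t : ℤ) (x : ℝ) (T : Finset Edg) (A B : Finset Edg → Prop) :
    P2 (fun _ => x) ((trl s t).mp T) A B =
      P2 (fun _ => x) T (fun F => A ((trl s t).mp F)) (fun F => B ((trl s t).mp F)) := by
  unfold LSym.mp
  rw [D0.P2_map]

theorem two {r R : ℕ} (hR : r + 2 ≤ R) (c1 c2 : ℤ) (S : Finset Edg) {x : ℝ} (h0 : 0 ≤ x)
    (h1 : x ≤ 1) :
    P2 (fun _ => x) S (CD c1 c2 r R S) (CD c1 c2 r R S) ≤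
      P2 (fun _ => x) (An (r + 1) (R - 1)) (fun F => AA (r + 1) (R - 1) (↑F : Set Edg))
        (fun F => AA (r + 1) (R - 1) (↑F : Set Edg)) := by
  obtain ⟨T, rfl⟩ : ∃ T, S = (trl c1 c2).mp T := ⟨_, (STA_mp_inv c1 c2 S).symm⟩
  rw [P2_trl]
  have hρ : ∀ U : Finset Edg, ∀ e ∈ U, 0 ≤ (fun _ : Edg => x) e ∧ (fun _ : Edg => x) e ≤ 1 :=
    fun _ _ _ => ⟨h0, h1⟩
  have k1 : ∀ F, F ⊆ T → CD c1 c2 r R ((trl c1 c2).mp T) ((trl c1 c2).mp F) → CD 0 0 r R T F := by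
    rintro F _ ⟨g1, g2⟩
    rw [LSym.coe_mp] at g1
    rw [← LSym.mp_sdiff, LSym.coe_mp] at g2
    exact ⟨STA_crs_trl g1, STA_dcrs_trl g2⟩
  refine (D0.P2_mono (hρ _) k1 k1).trans ?_
  have k2 : ∀ F, F ⊆ T → CD 0 0 r R T F → CD 0 0 r R T (F ∩ T) := by
    intro F hF h
    rwa [inter_eq_left.2 hF]
  refine (D0.P2_mono (hρ _) k2 k2).trans ?_
  set U := T ∪ An (r + 1) (R - 1) with hU
  have k3 : ∀ F, F ⊆ U → (CD 0 0 r R T (F ∩ T) ↔ CD 0 0 r R T (F ∩ T ∩ T)) := by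
    intro F _
    rw [inter_assoc, inter_self]
  have e3 : P2 (fun _ => x) U (fun F => CD 0 0 r R T (F ∩ T)) (fun F => CD 0 0 r R T (F ∩ T)) =
      P2 (fun _ => x) T (fun F => CD 0 0 r R T (F ∩ T)) (fun F => CD 0 0 r R T (F ∩ T)) :=
    P2_local (subset_union_left) k3 k3
  rw [← e3]
  have k4 : ∀ F, F ⊆ U → CD 0 0 r R T (F ∩ T) → AA (r + 1) (R - 1) (↑F : Set Edg) := by
    rintro F _ ⟨g1, g2⟩
    refine STA_AA hR ?_ ?_ g1 g2
    · rw [coe_inter]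
      exact Set.inter_subset_left
    · intro e he heF
      rw [mem_coe, mem_sdiff, mem_inter] at he
      exact he.2 ⟨mem_coe.1 heF, he.1⟩
  refine (D0.P2_mono (hρ _) k4 k4).trans (le_of_eq ?_)
  have k5 : ∀ F, F ⊆ U → (AA (r + 1) (R - 1) (↑F : Set Edg) ↔
      AA (r + 1) (R - 1) (↑(F ∩ An (r + 1) (R - 1)) : Set Edg)) := by
    intro F _
    rw [coe_inter]
    exact INDI_loc _ _ _
  exact P2_local (subset_union_right) k5 k5

theorem NX_CD {D : Dm} {z : Vtx} {d w : ℕ} (hw : (w : ℤ) ≤ D.bd z) {F : Finset Edg}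
    (h : NX D z d w F) : CD z.1 z.2 (d + 1) w D.edges F := by
  obtain ⟨hn1, hn2⟩ := h
  obtain ⟨u, v, hu, hv, hr⟩ := hn1 (fun u hu => wv_far hu hw)
  obtain ⟨f, g, hf, hg, hr'⟩ := hn2 (fun f hf => Pool.Agent.N144.EW.outer_far hf hw)
  rw [Pool.Agent.N144.EW.sd_le_iff] at hu hf
  rw [Pool.Agent.N144.EW.le_sd_iff] at hv hg
  refine ⟨⟨u, v, ?_, by omega, hr.mono Set.sdiff_subset⟩, ⟨f, g, ?_, by omega, hr'.mono ?_⟩⟩
  · unfold inR
    push_cast
    omega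
  · unfold inR
    push_cast
    omega
  · rintro e ⟨h3, h4, _⟩
    rw [Finset.mem_coe, Finset.mem_sdiff]
    exact ⟨h3, fun h5 => h4 (Or.inl h5)⟩

theorem P2_le_one {S : Finset Edg} {x : ℝ} (h0 : 0 ≤ x) (h1 : x ≤ 1) (A B : Finset Edg → Prop) :
    P2 (fun _ => x) S A B ≤ 1 := by
  unfold P2
  have hρ : ∀ e ∈ S, 0 ≤ (fun _ : Edg => x) e ∧ (fun _ : Edg => x) e ≤ 1 := fun _ _ => ⟨h0, h1⟩
  have h := E2_mono hρ (h := fun F F' => ind (A F) * ind (B F')) (h' := fun _ _ => (1 : ℝ))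
    (fun F F' _ _ => mul_le_one₀ (ind_le_one _) (ind_nonneg _) (ind_le_one _))
  rwa [A7.E2_const] at h

/-- **NX2** from the two-layer bound for the annulus. -/
theorem core (hq : ∃ C : ℝ, 0 < C ∧ ∀ (a R : ℕ) (x : ℝ), 1 ≤ a → a ≤ R → 0 ≤ x → x < 1 →
      1 ≤ (1 - x) * (a:ℝ) ^ (3 / 4 : ℝ) →
      P2 (fun _ => x) (An a R) (fun F => AA a R (↑F : Set Edg)) (fun F => AA a R (↑F : Set Edg)) ≤
        C * ((a:ℝ) / R) ^ (2 * (1 / 4 : ℝ))) : S_NX2 := by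
  obtain ⟨C, hC, hA⟩ := hq
  refine ⟨2 * C + 4, by positivity, ?_⟩
  intro D hD z d w hd hdw hw x hx0 hx1 hx
  have hd' : (1 : ℝ) ≤ d := by exact_mod_cast hd
  have hdw' : (d : ℝ) ≤ w := by exact_mod_cast hdw
  have hw0 : (0 : ℝ) < w := by linarith
  have hq0 : (0 : ℝ) < (d : ℝ) / w := by positivity
  have hY : (0 : ℝ) ≤ ((d : ℝ) / w) ^ (1 / 2 : ℝ) := by positivity
  by_cases hR : 4 * (d + 3) ≤ w
  · have s1 : P2 (fun _ => x) D.edges (NX D z d w) (NX D z d w) ≤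
        P2 (fun _ => x) D.edges (CD z.1 z.2 (d + 1) w D.edges) (CD z.1 z.2 (d + 1) w D.edges) :=
      D0.P2_mono (fun _ _ => ⟨hx0, hx1.le⟩) (fun F _ h => NX_CD hw h) (fun F _ h => NX_CD hw h)
    have s2 := two (r := d + 1) (R := w) (by omega) z.1 z.2 D.edges hx0 hx1.le
    have s3 : 1 ≤ (1 - x) * (((d + 1 + 1 : ℕ)) : ℝ) ^ (3 / 4 : ℝ) := by
      refine hx.trans ?_
      apply mul_le_mul_of_nonneg_left _ (by linarith)
      apply Real.rpow_le_rpow (by positivity) _ (by norm_num)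
      push_cast
      linarith
    have s4 := hA (d + 1 + 1) (w - 1) x (by omega) (by omega) hx0 hx1 s3
    have e : ((w - 1 : ℕ) : ℝ) = (w : ℝ) - 1 := by
      rw [Nat.cast_sub (by omega)]
      simp
    have hRR : (4 : ℝ) * (d + 3) ≤ w := by exact_mod_cast hR
    have s5 : (((d + 1 + 1 : ℕ) : ℝ) / ((w - 1 : ℕ) : ℝ)) ≤ 4 * ((d : ℝ) / w) := by
      rw [e]
      push_cast
      rw [div_le_iff₀ (by linarith)]
      rw [show 4 * ((d : ℝ) / w) * ((w : ℝ) - 1) = (4 * d * (w - 1)) / w by ring]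
      rw [le_div_iff₀ hw0]
      nlinarith
    have s6 : (((d + 1 + 1 : ℕ) : ℝ) / ((w - 1 : ℕ) : ℝ)) ^ (2 * (1 / 4 : ℝ)) ≤
        2 * ((d : ℝ) / w) ^ (1 / 2 : ℝ) := by
      have g0 : (0 : ℝ) ≤ ((d + 1 + 1 : ℕ) : ℝ) / ((w - 1 : ℕ) : ℝ) := by positivity
      rw [show (2 * (1 / 4 : ℝ)) = 1 / 2 by norm_num]
      refine (Real.rpow_le_rpow g0 s5 (by norm_num)).trans ?_
      rw [Real.mul_rpow (by norm_num) hq0.le]
      apply mul_le_mul_of_nonneg_right _ hY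
      rw [show (4 : ℝ) = 2 ^ (2 : ℝ) by norm_num, ← Real.rpow_mul (by norm_num)]
      norm_num
    have s7 := mul_le_mul_of_nonneg_left s6 hC.le
    linarith
  · have g1 : (w : ℝ) ≤ 16 * d := by
      have : w ≤ 16 * d := by omega
      exact_mod_cast this
    have g2 : (1 / 16 : ℝ) ≤ (d : ℝ) / w := by
      rw [le_div_iff₀ hw0]
      linarith
    have g3 : (1 / 4 : ℝ) ≤ ((d : ℝ) / w) ^ (1 / 2 : ℝ) := by
      calc (1 / 4 : ℝ) = (1 / 16 : ℝ) ^ (1 / 2 : ℝ) := by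
            rw [show (1 / 16 : ℝ) = (1 / 4) ^ (2 : ℝ) by norm_num, ← Real.rpow_mul (by norm_num)]
            norm_num
        _ ≤ _ := Real.rpow_le_rpow (by norm_num) g2 (by norm_num)
    have g4 := P2_le_one (S := D.edges) hx0 hx1.le (NX D z d w) (NX D z d w)
    nlinarith

end Pool.Agent.N681.PN.NX2
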